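import Pool.Agent.Work.MP_db9399_sl.Interface

/-!
# MP_db9399, the FRAME of exception (iii): MAIN0 (helper38), assembly of all blocks
-/

set_option autoImplicit false

namespace Pool.Agent.Work.MP_db9399_sl.helper38

open Finset Classical
open Pool.Agent.Work.MP_db9399_sl
open Pool.Agent.Work.MP_db9399_all (nb)
open Pool.Agent.Work.MP_db9399_dn (IsMat Tot)
open Pool.Agent.Work.MP_db9399_bg (HPre)
open _root_.MP_db9399_co

universe u

section aux
variable {V : Type u} [Fintype V]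

lemma mem_nb (G : SimpleGraph V) (v w : V) : w ∈ nb G v ↔ G.Adj v w := by
  unfold nb; simp

lemma card_nb (G : SimpleGraph V) [DecidableRel G.Adj] (v : V) : (nb G v).card = G.degree v := by
  rw [← SimpleGraph.card_neighborFinset_eq_degree]
  congr 1
  ext w
  rw [mem_nb]
  simp

lemma sum_nb_sdiff (G : SimpleGraph V) [DecidableRel G.Adj] (A S : Finset V) :
    (∑ a ∈ A, ((nb G a \ S).card : ℝ)) = ((G.interedges A (univ \ S)).card : ℝ) := by
  have h : (G.interedges A (univ \ S)).card = ∑ a ∈ A, (nb G a \ S).card := by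
    rw [SimpleGraph.interedges_def, card_filter, sum_product]
    refine sum_congr rfl fun a _ => ?_
    rw [← card_filter]
    congr 1
    ext w
    simp [mem_nb, and_comm]
  rw [h]
  push_cast
  rfl

/-- the precoloured matching as `HPre` -/
lemma hpre_of {k : ℕ} (hk0 : 0 < k) (G : SimpleGraph V) (H : G.Subgraph)
    (hH : IsDistThreeMatching H) (c₀ : V → Fin k) (t₀ : Sym2 V → Fin k)
    (h₀ : IsTotalColoring H.spanningCoe c₀ t₀) :
    ∃ (UH : Finset V) (EH : SimpleGraph V) (tu : V → Fin k), HPre G UH c₀ EH tu ∧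
      (∀ v, v ∈ UH ↔ v ∈ H.verts) ∧ (∀ v w, EH.Adj v w ↔ H.Adj v w) ∧
      ∀ a b, H.Adj a b → tu a = t₀ s(a, b) := by
  obtain ⟨hM, hdist⟩ := hH
  have hF2 : ∀ u ∈ H.verts, ∀ v ∈ H.verts, G.Adj u v → H.Adj u v := by
    intro u hu v hv huv
    by_contra hn
    have h1 := hdist u hu v hv huv.ne hn
    have h3 : G.edist u v ≤ ((SimpleGraph.Walk.cons huv SimpleGraph.Walk.nil).length : ℕ∞) :=
      SimpleGraph.edist_le _
    simp only [SimpleGraph.Walk.length_cons, SimpleGraph.Walk.length_nil] at h3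
    have h4 := h1.trans h3
    norm_num at h4
  have hF3 : ∀ u ∈ H.verts, ∀ v ∈ H.verts, ∀ x, u ≠ v → G.Adj x u → G.Adj x v → H.Adj u v := by
    intro u hu v hv x huv hxu hxv
    by_contra hn
    have h1 := hdist u hu v hv huv hn
    have h3 : G.edist u v ≤ ((SimpleGraph.Walk.cons hxu.symm
        (SimpleGraph.Walk.cons hxv SimpleGraph.Walk.nil)).length : ℕ∞) :=
      SimpleGraph.edist_le _
    simp only [SimpleGraph.Walk.length_cons, SimpleGraph.Walk.length_nil] at h3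
    have h4 := h1.trans h3
    norm_num at h4
  have hF4 : ∀ u v v', H.Adj u v → H.Adj u v' → v = v' := by
    intro u v v' h1 h2
    exact (hM h1.fst_mem).unique h1 h2
  set UH : Finset V := univ.filter (fun v => v ∈ H.verts) with hUH
  have hUmem : ∀ v : V, v ∈ UH ↔ v ∈ H.verts := by
    intro v
    rw [hUH, mem_filter]
    simp
  set tt : V → Fin k := fun a => if h : ∃ b, H.Adj a b then t₀ s(a, h.choose) else ⟨0, hk0⟩ with htt
  have httE : ∀ a b, H.Adj a b → tt a = t₀ s(a, b) := by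
    intro a b hab
    have hex : ∃ b, H.Adj a b := ⟨b, hab⟩
    have e1 : tt a = t₀ s(a, hex.choose) := by
      rw [htt]
      exact dif_pos hex
    rw [e1, hF4 a b hex.choose hab hex.choose_spec]
  have hpart : ∀ a ∈ H.verts, ∃ b, H.Adj a b := fun a ha => (hM ha).exists
  have hA : ∀ a b, H.spanningCoe.Adj a b ↔ H.Adj a b := fun a b => Iff.rfl
  refine ⟨UH, H.spanningCoe, tt, ⟨?_, ?_, ?_, ?_, ?_, ?_, ?_, ?_, ?_⟩, hUmem, hA, httE⟩
  · intro x y hxy
    exact ((hA x y).1 hxy).adj_sub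
  · intro x
    rw [card_le_one]
    intro y hy z hz
    rw [mem_nb] at hy hz
    exact hF4 x y z hy hz
  · intro x y hxy
    exact (hUmem x).2 ((hA x y).1 hxy).fst_mem
  · intro x hx
    obtain ⟨b, hb⟩ := hpart x ((hUmem x).1 hx)
    exact ⟨b, hb⟩
  · intro x hx y hy hxy
    exact hF2 x ((hUmem x).1 hx) y ((hUmem y).1 hy) hxy
  · intro v x hx y hy hvx hvy
    by_cases hab : x = y
    · left; exact hab
    · right
      exact hF3 x ((hUmem x).1 hx) y ((hUmem y).1 hy) v hab hvx hvy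
  · intro x y hxy
    exact h₀.vertex x y hxy
  · intro x hx
    obtain ⟨b, hb⟩ := hpart x ((hUmem x).1 hx)
    have e1 := httE x b hb
    have e2 := h₀.incidence x b hb
    intro h
    apply e2
    rw [← e1]
    exact h
  · intro x y hxy
    have h : H.Adj x y := hxy
    have e1 := httE x y h
    have e2 := httE y x h.symm
    rw [Sym2.eq_swap] at e2
    exact e1.trans e2.symm

/-- a spot contains at most two vertices of `UH` -/
lemma card_UH_le {k : ℕ} {G EH : SimpleGraph V} {UH : Finset V} {c0 tu : V → Fin k}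
    (h : HPre G UH c0 EH tu) {Y : Finset V} {d : ℕ} (hd : 0 < d) {θ : ℝ} (hθ : θ ≤ 1 / 100)
    (hlow : (1 - θ) * d ≤ (Y.card : ℝ)) (hinn : ∀ v ∈ Y, ((Y \ nb G v).card : ℝ) ≤ θ * d) :
    (Y ∩ UH).card ≤ 2 := by
  have hd' : (0 : ℝ) < d := by exact_mod_cast hd
  -- any two are adjacent in EH
  have key : ∀ u ∈ Y ∩ UH, ∀ u' ∈ Y ∩ UH, u ≠ u' → EH.Adj u u' := by
    intro u hu u' hu' hne
    rw [mem_inter] at hu hu'
    have h1 := hinn u hu.1
    have h2 := hinn u' hu'.1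
    have h3 : ((Y \ nb G u) ∪ (Y \ nb G u')).card < Y.card := by
      have e1 : (((Y \ nb G u) ∪ (Y \ nb G u')).card : ℝ) ≤
          ((Y \ nb G u).card : ℝ) + ((Y \ nb G u').card : ℝ) := by
        exact_mod_cast card_union_le _ _
      have e2 : (((Y \ nb G u) ∪ (Y \ nb G u')).card : ℝ) < (Y.card : ℝ) := by nlinarith
      exact_mod_cast e2
    obtain ⟨v, hv, hv'⟩ : ∃ v ∈ Y, v ∉ (Y \ nb G u) ∪ (Y \ nb G u') := by
      by_contra hn
      push Not at hn
      exact absurd (card_le_card (fun v hv => hn v hv)) (not_le.2 h3)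
    rw [mem_union, mem_sdiff, mem_sdiff, not_or] at hv'
    have a1 : G.Adj u v := by
      by_contra hn
      exact hv'.1 ⟨hv, fun hh => hn ((mem_nb G u v).1 hh)⟩
    have a2 : G.Adj u' v := by
      by_contra hn
      exact hv'.2 ⟨hv, fun hh => hn ((mem_nb G u' v).1 hh)⟩
    rcases h.far v u hu.2 u' hu'.2 a1.symm a2.symm with h5 | h5
    · exact absurd h5 hne
    · exact h5
  by_contra hn
  push Not at hn
  obtain ⟨a, b, c, ha, hb, hc, hab, hac, hbc⟩ := two_lt_card_iff.1 hn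
  have e1 := key a ha b hb hab
  have e2 := key a ha c hc hac
  have e3 := h.mat a
  rw [card_le_one] at e3
  exact hbc (e3 b ((mem_nb _ _ _).2 e1) c ((mem_nb _ _ _).2 e2))

end aux

section mono
variable {V : Type u} [Fintype V]

lemma Out.mono {k : ℕ} {δ δ' π : ℝ} {G Gx Gr EH : SimpleGraph V} {d : ℕ} {Ys : Finset (Finset V)}
    {UH : Finset V} {c0 tu : V → Fin k} {c : V → Fin k} {t : V → V → Fin k}
    {E : V → Finset (Fin k)} {K0 : Finset (Fin k)} {C C' : Fin 3 → Finset (Fin k)} {p : V → Fin 3}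
    {a : V → Bool} {Z : Finset V} (hδ : δ ≤ δ')
    (h : Out δ π G Gx Gr EH d Ys UH c0 tu c t E K0 C p a Z) (hC : ∀ j, C' j ⊆ C j)
    (hC' : ∀ j, π * d ≤ ((C' j).card : ℝ)) :
    Out δ' π G Gx Gr EH d Ys UH c0 tu c t E K0 C' p a Z := by
  have hd0 : (0 : ℝ) ≤ d := Nat.cast_nonneg d
  have hm : δ * d ≤ δ' * d := mul_le_mul_of_nonneg_right hδ hd0
  exact
  { K0c := h.K0c
    cU := h.cU
    cK := h.cK
    cc := h.cc
    ts := h.ts
    te := h.te
    tK := h.tK
    tc := h.tc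
    ti := h.ti
    Et := h.Et
    EK := h.EK
    EU := h.EU
    Ed := h.Ed
    CK := fun j => (hC j).trans (h.CK j)
    Cc := hC'
    Cd := fun i j hij => disjoint_of_subset_left (hC i) (disjoint_of_subset_right (hC j)
      (h.Cd i j hij))
    UZ := h.UZ
    ZY := fun Y hY => (h.ZY Y hY).trans hm
    av := fun v hv hz => disjoint_of_subset_right (hC _) (h.av v hv hz)
    cell := fun Y hY i l => (h.cell Y hY i l).trans hm
    ld := fun Y hY b => (h.ld Y hY b).trans hm }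

end mono

/-- Block MAIN0. -/
theorem MAIN0 (hSTR : Stmt_STR.{u}) (hOUTP : Stmt_OUTP.{u}) (hSSE : Stmt_SSE.{u})
    (hVSEQ : Stmt_VSEQ.{u}) (hFIN : Stmt_FIN.{u}) : Stmt_MAIN0.{u} := by
  obtain ⟨δF, π, θF, dF, hδF, hπ1, hπ2, hθF, hF⟩ := hFIN
  obtain ⟨δ1, θV, dV, hδ1, hθV, hV⟩ := hVSEQ δF π hδF hπ1 hπ2
  set δs : ℝ := min (min δF δ1) (1 / 1000) / 2 with hδs
  have hm0 : 0 < min (min δF δ1) (1 / 1000 : ℝ) := lt_min (lt_min hδF hδ1) (by norm_num)
  have hδs0 : 0 < δs := by rw [hδs]; linarith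
  have hδs1 : 2 * δs ≤ δF := by
    have := (min_le_left (min δF δ1) (1 / 1000 : ℝ)).trans (min_le_left _ _)
    rw [hδs]; linarith
  have hδs2 : 2 * δs ≤ δ1 := by
    have := (min_le_left (min δF δ1) (1 / 1000 : ℝ)).trans (min_le_right _ _)
    rw [hδs]; linarith
  have hδs3 : δs ≤ 1 / 1000 := by
    have := min_le_right (min δF δ1) (1 / 1000 : ℝ)
    rw [hδs]; linarith
  obtain ⟨θS, dS, hθS, hS⟩ := hSSE δs π hδs0 hπ1 hπ2 hδs3
  obtain ⟨θO, hθO, hθO1, hO⟩ := hOUTP δs π hδs0 (by linarith) hπ2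
  set θ : ℝ := min (min θF θV) (min θS θO) with hθdef
  have hθ0 : 0 < θ := lt_min (lt_min hθF hθV) (lt_min hθS hθO)
  have hθ1 : θ ≤ θF := (min_le_left _ _).trans (min_le_left _ _)
  have hθ2 : θ ≤ θV := (min_le_left _ _).trans (min_le_right _ _)
  have hθ3 : θ ≤ θS := (min_le_right _ _).trans (min_le_left _ _)
  have hθ4 : θ ≤ θO := (min_le_right _ _).trans (min_le_right _ _)
  have hθ5 : θ ≤ 1 / 100 := hθ4.trans hθO1
  obtain ⟨ζ, hζ0, hζ1, hR⟩ := hSTR θ hθ0 (by linarith)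
  refine ⟨ζ / 2, by linarith, ?_⟩
  intro g hg
  obtain ⟨g', dR, hg'0, hg'1, hg'2, hR⟩ := hR g g hg hg
  obtain ⟨dO, hO⟩ := hO g' hg'0 hg'2
  refine ⟨max (max (max dF dV) (max dS dO)) (max dR 1), ?_⟩
  intro V _ G _ k hmax hbip hnsc hk H hH c₀ t₀ h₀
  set d : ℕ := G.maxDegree with hd
  have hdF : dF ≤ d := by
    have := hmax; simp only [max_le_iff] at this; exact this.1.1.1
  have hdV : dV ≤ d := by
    have := hmax; simp only [max_le_iff] at this; exact this.1.1.2
  have hdS : dS ≤ d := by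
    have := hmax; simp only [max_le_iff] at this; exact this.1.2.1
  have hdO : dO ≤ d := by
    have := hmax; simp only [max_le_iff] at this; exact this.1.2.2
  have hdR : dR ≤ d := by
    have := hmax; simp only [max_le_iff] at this; exact this.2.1
  have hd1 : 1 ≤ d := by
    have := hmax; simp only [max_le_iff] at this; exact this.2.2
  have hd0 : (0 : ℝ) < d := by exact_mod_cast hd1
  have hdeg : ∀ v, (nb G v).card ≤ d := by
    intro v
    rw [card_nb]
    exact G.degree_le_maxDegree v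
  have hcardV : d ≤ Fintype.card V := by
    rcases isEmpty_or_nonempty V with hV | hV
    · rw [hd, SimpleGraph.maxDegree_of_isEmpty]
      exact Nat.zero_le _
    · exact (SimpleGraph.maxDegree_lt_card_verts G).le
  have hBip : Bip g G d := by
    intro S T hST hT hc
    rw [sum_nb_sdiff]
    refine hbip S T hST ?_ hc
    intro t ht
    have := hT t ht
    rwa [card_nb] at this
  -- the spots
  obtain ⟨Ys, hY⟩ := hR G d hdR hdeg hBip
  have hYd : ∀ Y ∈ Ys, d ≤ Y.card := by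
    intro Y hYY
    by_contra hn
    push Not at hn
    have hlow := hY.low Y hYY
    have hne : Y.Nonempty := by
      rw [← card_pos]
      have : (0 : ℝ) < Y.card := lt_of_lt_of_le (by nlinarith) hlow
      exact_mod_cast this
    have hsum : ∑ v ∈ Y, ((d : ℝ) - (G.neighborFinset v ∩ Y).card) ≤ g * d * Y.card := by
      refine le_trans (le_of_eq ?_) (hY.sum Y hYY)
      refine sum_congr rfl fun v _ => ?_
      have : G.neighborFinset v ∩ Y = nb G v ∩ Y := by
        ext w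
        simp [mem_nb]
      rw [this]
    obtain ⟨v, hv, hv'⟩ := hnsc Y hn hsum hne
    have h1 := hY.hub Y hYY v hv
    have h2 : Y \ G.neighborFinset v = Y \ nb G v := by
      ext w
      simp [mem_nb]
    rw [h2] at hv'
    nlinarith
  have hk0 : 0 < k := lt_of_lt_of_le (Nat.succ_pos _) hk
  obtain ⟨UH, EH, tu, hPre, hUmem, hEH, htu⟩ := hpre_of hk0 G H hH c₀ t₀ h₀
  have hU2 : ∀ Y ∈ Ys, (Y ∩ UH).card ≤ 2 := by
    intro Y hYY
    exact card_UH_le hPre hd1 hθ5 (hY.low Y hYY) (hY.inn Y hYY)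
  have hY2 : ∀ Y ∈ Ys, Y.card ≤ 2 * d := by
    intro Y hYY
    have h1 := hY.upp Y hYY
    have h2 : (Y.card : ℝ) ≤ ((2 * d : ℕ) : ℝ) := by push_cast; nlinarith
    exact_mod_cast h2
  have hdegθ : ∀ θ', θ ≤ θ' → ∀ Y ∈ Ys, ∀ v ∈ Y, (1 - θ') * d ≤ ((nb G v ∩ Y).card : ℝ) := by
    intro θ' hθ' Y hYY v hv
    have := hY.deg Y hYY v hv
    nlinarith
  have hinnθ : ∀ θ', θ ≤ θ' → ∀ Y ∈ Ys, ∀ v ∈ Y, ((Y \ nb G v).card : ℝ) ≤ θ' * d := by
    intro θ' hθ' Y hYY v hv
    have := hY.inn Y hYY v hv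
    nlinarith
  obtain ⟨c, t, E, K0, C, p, a, Z, hOut⟩ := hO G d k Ys UH c₀ EH tu hdO hcardV hk hdeg hY2 hY.dis
    (hdegθ θO hθ4) hY.bip hY.nsc hPre hU2
  -- trim the palettes
  have hCt : ∀ j, ∃ C' : Finset (Fin k), C' ⊆ C j ∧ C'.card = ⌈π * d⌉₊ := by
    intro j
    have h1 : ⌈π * d⌉₊ ≤ (C j).card := Nat.ceil_le.2 (hOut.Cc j)
    obtain ⟨C', h2, h3⟩ := exists_subset_card_eq h1
    exact ⟨C', h2, h3⟩
  choose C' hC's hC'c using hCt
  have hC'1 : ∀ j, π * d ≤ ((C' j).card : ℝ) := by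
    intro j
    rw [hC'c j]
    exact Nat.le_ceil _
  have hC'2 : ∀ j, ((C' j).card : ℝ) ≤ π * d + 1 := by
    intro j
    rw [hC'c j]
    exact (Nat.ceil_lt_add_one (by nlinarith)).le
  have hOut' := Out.mono le_rfl hOut hC's hC'1
  obtain ⟨t', E', ht', hEE, -, hOut2⟩ := hS G d k Ys UH c₀ EH tu c t E K0 C' p a Z (fun _ => ∅)
    hdS hdeg hY2 hY.dis (hdegθ θS hθ3) hPre (fun v => by simp) (fun v _ => disjoint_empty_right _)
    hOut'
  have hOutV := Out.mono hδs2 hOut2 (fun j => Subset.rfl) hC'1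
  have hOutF := Out.mono hδs1 hOut2 (fun j => Subset.rfl) hC'1
  obtain ⟨c', Z', F, hc', hZ', hVert⟩ := hV G d k Ys UH c₀ EH tu c t' E' K0 C' p a Z hdV hdeg
    hY.dis (fun Y hYY => ⟨hYd Y hYY, by
      have := hY.upp Y hYY
      nlinarith⟩) (hdegθ θV hθ2) (hinnθ θV hθ2) hPre hC'2 hOutV
  obtain ⟨t'', hTot, hcU, htE⟩ := hF G d k Ys UH c₀ EH tu c c' t' E' F K0 C' p a Z Z' hdF hdeg
    hY.dis (fun Y hYY => ⟨by
      have := hY.low Y hYY
      nlinarith, by
      have := hY.upp Y hYY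
      nlinarith⟩) (hdegθ θF hθ1) (hinnθ θF hθ1) hPre hOutF hc' hZ' hVert
  obtain ⟨g1', g2', g3', g4'⟩ := hTot
  refine ⟨c', Sym2.lift ⟨fun a b => t'' a b, fun a b => g2' _ _⟩, ⟨?_, ?_, ?_⟩, ?_, ?_⟩
  · intro u v huv
    exact g1' u v huv
  · intro u v w huv huw hvw heq
    apply hvw
    have hv1 : v ∈ (nb G u : Set V) := by
      rw [Finset.mem_coe, mem_nb]; exact huv
    have hw1 : w ∈ (nb G u : Set V) := by
      rw [Finset.mem_coe, mem_nb]; exact huw
    exact g3' u hv1 hw1 heq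
  · intro u v huv
    exact g4' u v huv
  · intro v hv
    exact hcU v ((hUmem v).2 hv)
  · intro e he
    induction e using Sym2.ind with
    | _ a b =>
      have hab : H.Adj a b := he
      have h1 := htE a b ((hEH a b).2 hab)
      have h2 := htu a b hab
      show t'' a b = t₀ s(a, b)
      rw [h1, h2]

end Pool.Agent.Work.MP_db9399_sl.helper38
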