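import Pool.Agent.Work.MP_db9399_sl_helper59.STR
import Pool.Agent.Work.MP_db9399_sl_helper6.OUTP
import Pool.Agent.Work.MP_db9399_sl_helper6.SSE
import Pool.Agent.Work.MP_db9399_ot_helper1.Final
import Pool.Agent.Work.MP_db9399_sl_helper94.VSP
import Pool.Agent.Work.MP_db9399_sl_helper84.VSEQ
import Pool.Agent.Work.MP_db9399_sl_helper49.FIN
import Pool.Agent.Work.MP_db9399_sl_helper38.MAIN0

/-!
# MP_db9399, MAIN0, unconditional (helper38)
-/

set_option autoImplicit false

namespace Pool.Agent.Work.MP_db9399_sl.helper38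

open Pool.Agent.Work.MP_db9399_sl

universe u

theorem main0 : Stmt_MAIN0.{u} :=
  MAIN0 MP_db9399_sl_helper59.STR (MP_db9399_sl_helper6.OUTP_of MP_db9399_ot.helper1.out_holds)
    MP_db9399_sl_helper6.SSE (MP_db9399_sl_helper84.VSEQ helper94.VSP)
    MP_db9399_sl_helper49.FIN

end Pool.Agent.Work.MP_db9399_sl.helper38
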